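import Pool.Agent.H65.GI.Top

/-!
MP_b8729f, project GI, block R: the balls are trees if the girth is large.
-/

set_option autoImplicit false
set_option linter.unusedSectionVars false

namespace Pool.Agent.H75.GR

open Finset Classical Pool.Agent.H65.GI

variable {V : Type} {G : SimpleGraph V}

/-- A non-backtracking walk, as a walk (reversed). -/
private lemma R1_walk {a b : V} {n : ℕ} {y x : V} (h : Nb G a b n y x) :
    ∃ q : G.Walk x a, q.length = n + 1 ∧ List.IsChain (· ≠ ·) q.edges ∧ q.snd = y ∧
      q.penultimate = b := by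
  induction h with
  | base h =>
    refine ⟨SimpleGraph.Walk.cons h.symm SimpleGraph.Walk.nil, by simp, by simp, by simp, ?_⟩
    simp [SimpleGraph.Walk.penultimate]
  | @step n z y x h hadj hne ih =>
    obtain ⟨q, hq, hc, hs, hp⟩ := ih
    cases q with
    | nil => simp at hq
    | @cons _ t _ ht q =>
      rw [SimpleGraph.Walk.snd_cons] at hs
      subst hs
      refine ⟨SimpleGraph.Walk.cons hadj.symm (SimpleGraph.Walk.cons ht q), by simp [hq], ?_,
        by simp, ?_⟩
      · simp only [SimpleGraph.Walk.edges_cons] at hc ⊢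
        rw [List.isChain_cons_cons]
        refine ⟨?_, hc⟩
        intro he
        rw [Sym2.eq_iff] at he
        rcases he with ⟨h1, _⟩ | ⟨h1, _⟩
        · exact hadj.ne h1.symm
        · exact hne h1
      · rw [SimpleGraph.Walk.penultimate_cons_cons, hp]

/-- A graph with few edges and large girth is acyclic. -/
private lemma R1_acyclic {k : ℕ} (hg : ((k + 1 : ℕ) : ℕ∞) ≤ G.egirth) {L : List (Sym2 V)}
    (hL : L.length ≤ k) (H : SimpleGraph V) (hH : H ≤ G) (hHL : ∀ e ∈ H.edgeSet, e ∈ L) :
    H.IsAcyclic := by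
  intro v c hc
  have h1 : G.egirth ≤ (c.mapLe hH).length :=
    SimpleGraph.egirth_le_length ((SimpleGraph.Walk.isCycle_mapLe hH).2 hc)
  have h2 : (c.mapLe hH).length = c.length := by simp [SimpleGraph.Walk.mapLe]
  have h3 : k + 1 ≤ c.length := by
    rw [h2] at h1
    exact_mod_cast hg.trans h1
  have h4 : c.edges ⊆ L := fun e he => hHL e (c.edges_subset_edgeSet he)
  have h5 := (hc.edges_nodup.subperm h4).length_le
  rw [SimpleGraph.Walk.length_edges] at h5
  omega

/-- Two reduced walks with few edges are equal. -/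
private lemma R1_unique {k : ℕ} (hg : ((k + 1 : ℕ) : ℕ∞) ≤ G.egirth) {x a : V}
    (p q : G.Walk x a) (hp : List.IsChain (· ≠ ·) p.edges) (hq : List.IsChain (· ≠ ·) q.edges)
    (hk : p.length + q.length ≤ k) : p = q := by
  set H : SimpleGraph V := SimpleGraph.fromEdgeSet {e | e ∈ p.edges ++ q.edges} with hHdef
  have hHe : ∀ e, e ∈ H.edgeSet → e ∈ p.edges ++ q.edges := by
    intro e he
    rw [hHdef, SimpleGraph.edgeSet_fromEdgeSet] at he
    exact he.1
  have hGe : ∀ e, e ∈ p.edges ++ q.edges → e ∈ G.edgeSet := by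
    intro e he
    rw [List.mem_append] at he
    rcases he with he | he
    exacts [p.edges_subset_edgeSet he, q.edges_subset_edgeSet he]
  have hHe' : ∀ e, e ∈ p.edges ++ q.edges → e ∈ H.edgeSet := by
    intro e he
    rw [hHdef, SimpleGraph.edgeSet_fromEdgeSet]
    exact ⟨he, G.not_isDiag_of_mem_edgeSet (hGe e he)⟩
  have hle : H ≤ G := by
    rw [← SimpleGraph.edgeSet_subset_edgeSet]
    intro e he
    exact hGe e (hHe e he)
  have hac := R1_acyclic hg (L := p.edges ++ q.edges) (by simpa using hk) H hle hHe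
  have hp1 : ∀ e ∈ p.edges, e ∈ H.edgeSet := fun e he => hHe' e (List.mem_append_left _ he)
  have hq1 : ∀ e ∈ q.edges, e ∈ H.edgeSet := fun e he => hHe' e (List.mem_append_right _ he)
  have hpP : (p.transfer H hp1).IsPath := by
    rw [hac.isPath_iff_isChain, SimpleGraph.Walk.edges_transfer]
    exact hp
  have hqP : (q.transfer H hq1).IsPath := by
    rw [hac.isPath_iff_isChain, SimpleGraph.Walk.edges_transfer]
    exact hq
  have h1 := congrArg Subtype.val ((hac.subsingleton_path x a).elim ⟨_, hpP⟩ ⟨_, hqP⟩)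
  have h2 : (p.transfer H hp1).support = (q.transfer H hq1).support := by
    rw [show p.transfer H hp1 = q.transfer H hq1 from h1]
  rw [SimpleGraph.Walk.support_transfer, SimpleGraph.Walk.support_transfer] at h2
  exact SimpleGraph.Walk.ext_support h2

theorem tlOfGirth : Top.TlOfGirth := by
  intro V _ G k hg
  refine ⟨?_, ?_⟩
  · intro a b n y x hn h hxa
    subst hxa
    obtain ⟨q, hq, hc, -, -⟩ := R1_walk h
    have := R1_unique hg q SimpleGraph.Walk.nil hc (by simp) (by simp; omega)
    rw [this] at hq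
    simp at hq
  · intro a b b' n n' y y' x hn hn' h h'
    obtain ⟨q, hq, hc, hs, hp⟩ := R1_walk h
    obtain ⟨q', hq', hc', hs', hp'⟩ := R1_walk h'
    have := R1_unique hg q q' hc hc' (by omega)
    subst this
    refine ⟨by omega, ?_, ?_⟩
    · rw [← hp, ← hp']
    · rw [← hs, ← hs']

end Pool.Agent.H75.GR
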