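import Pool.Agent.H65.GI.Top

/-!
MP_b8729f, project GI, block R: embedding into a regular graph of the same girth.

`W = V × Γ`, `Γ` a finite group with involutions `s i` such that no nonempty reduced word of length
at most `g` is trivial; extra edges `(v, γ) ~ (v, γ * s (v, k))`.
-/

set_option autoImplicit false
set_option linter.unusedSectionVars false

namespace Pool.Agent.H75.GR

open Finset Classical Pool.Agent.H65.GI

/-! ### The group -/

section Group

variable (I : Type) (g : ℕ)

/-- reduced words of length at most `g` -/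
private abbrev RW : Type := {l : List I // List.IsChain (· ≠ ·) l ∧ l.length ≤ g}

variable {I g}

private lemma RW_finite [Finite I] : Finite (RW I g) :=
  Set.Finite.subset (List.finite_length_le I g) (fun _ h => h.2)

private noncomputable def sw (i : I) (l : RW I g) : RW I g :=
  if h : ∃ l', l.1 = i :: l' then ⟨l.1.tail, by
      obtain ⟨l', hl'⟩ := h
      have h1 := l.2.1
      have h2 := l.2.2
      rw [hl'] at h1 h2
      rw [hl', List.tail_cons]
      exact ⟨h1.tail, by simp at h2; omega⟩⟩
  else if h' : l.1.length < g then ⟨i :: l.1, by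
      refine ⟨?_, by simp; omega⟩
      have h1 := l.2.1
      rcases hl : l.1 with _ | ⟨j, l'⟩
      · simp
      · rw [List.isChain_cons_cons]
        rw [hl] at h1
        refine ⟨?_, h1⟩
        rintro rfl
        exact h ⟨l', hl⟩⟩
  else l

private lemma sw_cons {i : I} {l : RW I g} {l' : List I} (h : l.1 = i :: l') :
    (sw i l).1 = l' := by
  rw [sw, dif_pos ⟨l', h⟩]
  simp [h]

private lemma sw_ne {i : I} {l : RW I g} (h : ¬ ∃ l', l.1 = i :: l') (h' : l.1.length < g) :
    (sw i l).1 = i :: l.1 := by
  rw [sw, dif_neg h, dif_pos h']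

private lemma sw_sw (i : I) (l : RW I g) : sw i (sw i l) = l := by
  by_cases h : ∃ l', l.1 = i :: l'
  · obtain ⟨l', h⟩ := h
    have h1 := sw_cons h
    have h2 := l.2.1
    have h3 := l.2.2
    rw [h] at h2 h3
    apply Subtype.ext
    rw [sw_ne, h1, h]
    · rintro ⟨l'', h4⟩
      rw [h1] at h4
      rw [h4, List.isChain_cons_cons] at h2
      exact h2.1 rfl
    · rw [h1]
      simp at h3
      omega
  · by_cases h' : l.1.length < g
    · apply Subtype.ext
      exact sw_cons (sw_ne h h')
    · have : sw i l = l := by rw [sw, dif_neg h, dif_neg h']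
      rw [this, this]

private noncomputable def sg (i : I) : Equiv.Perm (RW I g) :=
  ⟨sw i, sw i, sw_sw i, sw_sw i⟩

private lemma sg_mul (i : I) : (sg i : Equiv.Perm (RW I g)) * sg i = 1 := by
  exact Equiv.ext (fun l => sw_sw i l)

private lemma sg_prod (l : List I) (h : List.IsChain (· ≠ ·) l) (hl : l.length ≤ g) :
    ((l.map (sg (g := g))).prod ⟨[], by simp⟩).1 = l := by
  induction l with
  | nil => simp
  | cons i l ih =>
    have h1 := ih h.tail (by simp at hl; omega)
    rw [List.map_cons, List.prod_cons, Equiv.Perm.mul_apply]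
    change (sw i _).1 = _
    rw [sw_ne, h1]
    · rintro ⟨l', h2⟩
      rw [h1] at h2
      rw [h2, List.isChain_cons_cons] at h
      exact h.1 rfl
    · rw [h1]
      simp at hl
      omega

/-- The group. -/
private lemma exists_group (I : Type) [Finite I] (g : ℕ) :
    ∃ (Γ : Type) (_ : Group Γ) (_ : Finite Γ) (s : I → Γ), (∀ i, s i * s i = 1) ∧
      ∀ l : List I, List.IsChain (· ≠ ·) l → l.length ≤ g → (l.map s).prod = 1 → l = [] := by
  have := RW_finite (I := I) (g := g)
  refine ⟨Equiv.Perm (RW I g), inferInstance, inferInstance, sg, sg_mul, ?_⟩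
  intro l h hl h1
  have := sg_prod l h hl
  rw [h1] at this
  exact this.symm

end Group

/-! ### The graph -/

section Graph

variable {V : Type} [Fintype V] (G : SimpleGraph V) {Γ : Type} [Group Γ] (n : V → ℕ)
  (s : (Σ v, Fin (n v)) → Γ)

private def GG (hs : ∀ i, s i * s i = 1) (h1 : ∀ i, s i ≠ 1) : SimpleGraph (V × Γ) where
  Adj x y := (x.2 = y.2 ∧ G.Adj x.1 y.1) ∨ (x.1 = y.1 ∧ ∃ k, y.2 = x.2 * s ⟨x.1, k⟩)
  symm := ⟨fun x y h => by
    rcases h with ⟨h, h'⟩ | ⟨h, k, h'⟩
    · exact Or.inl ⟨h.symm, h'.symm⟩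
    · refine Or.inr ⟨h.symm, ?_⟩
      rw [← h]
      exact ⟨k, by rw [h', mul_assoc, hs, mul_one]⟩⟩
  loopless := ⟨fun x h => by
    rcases h with ⟨_, h'⟩ | ⟨_, k, h'⟩
    · exact h'.ne rfl
    · exact h1 _ (mul_left_cancel (h'.symm.trans (mul_one _).symm))⟩

variable {G n s}

private lemma GG_walk {hs : ∀ i, s i * s i = 1} {h1 : ∀ i, s i ≠ 1} {x y : V × Γ}
    (p : (GG G n s hs h1).Walk x y) : ∃ l : List (Σ v, Fin (n v)),
      y.2 = x.2 * (l.map s).prod ∧ l.length ≤ p.length ∧
      (∀ i l', l = i :: l' → s((i.1, x.2), (i.1, x.2 * s i)) ∈ p.edges) ∧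
      (p.IsPath → List.IsChain (· ≠ ·) l) ∧
      (l = [] → ∀ u γ, x = (u, γ) → ∃ v, ∃ p' : G.Walk u v, y = (v, γ) ∧
        p.edges = p'.edges.map (Sym2.map (fun z => (z, γ))) ∧
        p.support = p'.support.map (fun z => (z, γ)) ∧ p.length = p'.length) := by
  induction p with
  | @nil x =>
    refine ⟨[], by simp, by simp, by simp, by simp, ?_⟩
    rintro - u γ rfl
    exact ⟨u, SimpleGraph.Walk.nil, rfl, by simp, by simp, by simp⟩
  | @cons x y z h p ih =>
    obtain ⟨l, hl1, hl2, hl3, hl4, hl5⟩ := ih
    by_cases hc : x.2 = y.2 ∧ G.Adj x.1 y.1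
    · refine ⟨l, by rw [hl1, hc.1], by simp; omega, ?_, ?_, ?_⟩
      · intro i l' h'
        rw [hc.1, SimpleGraph.Walk.edges_cons]
        exact List.mem_cons_of_mem _ (hl3 i l' h')
      · intro hp
        exact hl4 hp.of_cons
      · rintro h0 u γ rfl
        obtain ⟨v, p', h5, h6, h7, h8⟩ := hl5 h0 y.1 γ (Prod.ext rfl hc.1.symm)
        refine ⟨v, SimpleGraph.Walk.cons hc.2 p', h5, ?_, ?_, by simp [h8]⟩
        · have : y = (y.1, γ) := Prod.ext rfl hc.1.symm
          rw [SimpleGraph.Walk.edges_cons, SimpleGraph.Walk.edges_cons, List.map_cons, h6]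
          congr 1
          rw [Sym2.map_mk]
          conv_lhs => rw [this]
        · rw [SimpleGraph.Walk.support_cons, SimpleGraph.Walk.support_cons, List.map_cons, h7]
    · have h' := h
      rcases h' with h' | ⟨h', k, hk⟩
      · exact absurd h' hc
      · set i : Σ v, Fin (n v) := ⟨x.1, k⟩ with hi
        refine ⟨i :: l, ?_, by simp; omega, ?_, ?_, ?_⟩
        · rw [hl1, hk, List.map_cons, List.prod_cons, mul_assoc]
        · intro j l' h''
          rw [List.cons.injEq] at h''
          rw [← h''.1, SimpleGraph.Walk.edges_cons]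
          apply List.mem_cons.2
          left
          have e1 : x = (i.1, x.2) := rfl
          have e2 : y = (i.1, x.2 * s i) := Prod.ext h'.symm hk
          rw [e2]
        · intro hp
          rw [SimpleGraph.Walk.cons_isPath_iff] at hp
          rcases hl : l with _ | ⟨j, l'⟩
          · simp
          · rw [List.isChain_cons_cons]
            refine ⟨?_, hl ▸ hl4 hp.1⟩
            intro hij
            apply hp.2
            have h3 := hl3 j l' hl
            have h4 := SimpleGraph.Walk.snd_mem_support_of_mem_edges p h3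
            rw [← hij, hk, mul_assoc, hs, mul_one] at h4
            exact h4
        · intro h0
          exact absurd h0 (by simp)

private lemma GG_girth {hs : ∀ i, s i * s i = 1} {h1 : ∀ i, s i ≠ 1} {g : ℕ}
    (hw : ∀ l : List (Σ v, Fin (n v)), List.IsChain (· ≠ ·) l → l.length ≤ g →
      (l.map s).prod = 1 → l = []) (hg : (g : ℕ∞) ≤ G.egirth) :
    (g : ℕ∞) ≤ (GG G n s hs h1).egirth := by
  rw [SimpleGraph.le_egirth]
  intro x c hc
  by_contra hlt
  rw [not_le] at hlt
  have hlt' : c.length < g := by exact_mod_cast hlt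
  cases c with
  | nil => exact hc.ne_nil rfl
  | @cons _ y _ h p =>
    rw [SimpleGraph.Walk.length_cons] at hlt'
    have hc' := (SimpleGraph.Walk.cons_isCycle_iff p h).1 hc
    obtain ⟨l, hl1, hl2, hl3, hl4, hl5⟩ := GG_walk p
    have hch := hl4 hc'.1
    by_cases hcase : x.2 = y.2 ∧ G.Adj x.1 y.1
    · have hl0 : l = [] := by
        apply hw l hch (by omega)
        rw [hcase.1] at hl1
        exact (mul_left_cancel (hl1.symm.trans (mul_one _).symm))
      obtain ⟨v, p', h5, h6, h7, h8⟩ := hl5 hl0 y.1 x.2 (Prod.ext rfl hcase.1.symm)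
      have hv : v = x.1 := by rw [h5]
      subst hv
      have hcyc : (SimpleGraph.Walk.cons hcase.2 p').IsCycle := by
        rw [SimpleGraph.Walk.cons_isCycle_iff]
        refine ⟨?_, ?_⟩
        · rw [SimpleGraph.Walk.isPath_def]
          have h9 := (SimpleGraph.Walk.isPath_def p).1 hc'.1
          rw [h7] at h9
          exact List.Nodup.of_map _ h9
        · intro he
          apply hc'.2
          rw [h6, List.mem_map]
          refine ⟨_, he, ?_⟩
          rw [Sym2.map_mk]
          have : y = (y.1, x.2) := Prod.ext rfl hcase.1.symm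
          conv_rhs => rw [this]
      have h10 := SimpleGraph.egirth_le_length hcyc
      rw [SimpleGraph.Walk.length_cons, ← h8] at h10
      have h11 : g ≤ p.length + 1 := by exact_mod_cast hg.trans h10
      omega
    · have h' := h
      rcases h' with h' | ⟨h', k, hk⟩
      · exact hcase h'
      · set i : Σ v, Fin (n v) := ⟨x.1, k⟩ with hi
        have hprod : ((i :: l).map s).prod = 1 := by
          rw [List.map_cons, List.prod_cons]
          rw [hk, mul_assoc] at hl1
          exact (mul_left_cancel (hl1.symm.trans (mul_one _).symm))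
        have hnch : ¬ List.IsChain (· ≠ ·) (i :: l) := fun hh =>
          absurd (hw _ hh (by simp; omega) hprod) (by simp)
        rcases hl : l with _ | ⟨j, l'⟩
        · rw [hl] at hnch
          exact hnch (by simp)
        · rw [hl, List.isChain_cons_cons] at hnch
          have hij : i = j := by
            by_contra hne
            exact hnch ⟨hne, hl ▸ hch⟩
          have h3 := hl3 j l' hl
          rw [← hij] at h3
          apply hc'.2
          have e1 : y = (i.1, y.2) := Prod.ext h'.symm rfl
          have e2 : x = (i.1, y.2 * s i) := Prod.ext rfl (by rw [hk, mul_assoc, hs, mul_one])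
          rw [Sym2.eq_swap]
          have e3 : s(y, x) = s((i.1, y.2), (i.1, y.2 * s i)) := by
            conv_lhs => rw [e2, e1]
          rw [e3]
          exact h3

private lemma GG_reg [Fintype (V × Γ)] {hs : ∀ i, s i * s i = 1} {h1 : ∀ i, s i ≠ 1}
    (hinj : Function.Injective s) {Δ : ℕ}
    (hn : ∀ v, (univ.filter (fun u => G.Adj v u)).card + n v = Δ) : Reg (GG G n s hs h1) Δ := by
  intro x
  have e : univ.filter (fun y => (GG G n s hs h1).Adj x y) =
      (univ.filter (fun u => G.Adj x.1 u)).image (fun u => (u, x.2)) ∪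
      (univ : Finset (Fin (n x.1))).image (fun k => (x.1, x.2 * s ⟨x.1, k⟩)) := by
    ext y
    simp only [mem_filter, mem_univ, true_and, mem_union, mem_image]
    constructor
    · rintro (⟨h, h'⟩ | ⟨h, k, h'⟩)
      · exact Or.inl ⟨y.1, h', Prod.ext rfl h⟩
      · exact Or.inr ⟨k, Prod.ext h h'.symm⟩
    · rintro (⟨u, h, rfl⟩ | ⟨k, rfl⟩)
      · exact Or.inl ⟨rfl, h⟩
      · exact Or.inr ⟨rfl, k, rfl⟩
  rw [e, card_union_of_disjoint, card_image_of_injective, card_image_of_injective, card_univ,
    Fintype.card_fin, hn]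
  · intro k k' h
    have h2 := mul_left_cancel (congrArg Prod.snd h)
    have h3 := hinj h2
    simpa using h3
  · intro u u' h
    exact congrArg Prod.fst h
  · rw [disjoint_left]
    intro y hy hy'
    simp only [mem_filter, mem_univ, true_and, mem_image] at hy hy'
    obtain ⟨u, hu, rfl⟩ := hy
    obtain ⟨k, hk⟩ := hy'
    exact hu.ne (congrArg Prod.fst hk)

end Graph

theorem regul : Top.Regul := by
  intro V _ G Δ g hd hg
  set n : V → ℕ := fun v => Δ - (univ.filter (fun u => G.Adj v u)).card with hn
  obtain ⟨Γ, _, _, s, hs, hw⟩ := exists_group (Σ v, Fin (n v)) (g + 2)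
  have h1 : ∀ i, s i ≠ 1 := by
    intro i hi
    have := hw [i] (by simp) (by simp) (by simp [hi])
    simp at this
  have hinj : Function.Injective s := by
    intro i j hij
    by_contra hne
    have := hw [i, j] (by simp [hne]) (by simp) (by simp [hij, hs])
    simp at this
  let _ : Fintype (V × Γ) := Fintype.ofFinite _
  refine ⟨V × Γ, inferInstance, GG G n s hs h1, fun v => (v, 1), ?_, ?_, ?_, ?_⟩
  · intro u v h
    exact congrArg Prod.fst h
  · intro u v h
    exact Or.inl ⟨rfl, h⟩
  · exact GG_reg hinj (fun v => by rw [hn]; have := hd v; simp only; omega)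
  · exact GG_girth (fun l hl hl' hp => hw l hl (by omega) hp) hg

end Pool.Agent.H75.GR
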